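import Pool.Agent.W566.MZ.Stmts

/-!
# MP_aa8fd2_nt: parts K6 and K7
-/

set_option autoImplicit false

namespace Pool.Agent.W178.MZK

open NumberField IsDedekindDomain MZ

section transport

variable {F Ω : Type} [Field F] [Field Ω] [Algebra F Ω]

/-- transport of `UnramifiedOutside` along an `F`-isomorphism -/
theorem unram_of_equiv (S : Set (HeightOneSpectrum (𝓞 F))) {K₁ K₂ : IntermediateField F Ω}
    (e : K₁ ≃ₐ[F] K₂) (h : UnramifiedOutside S K₁) : UnramifiedOutside S K₂ := by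
  intro w hw
  let E : 𝓞 K₁ ≃ₐ[𝓞 F] 𝓞 K₂ := RingOfIntegers.mapAlgEquiv e
  have hprime : (w.asIdeal.comap (E : 𝓞 K₁ →+* 𝓞 K₂)).IsPrime := Ideal.comap_isPrime _ _
  have hne : w.asIdeal.comap (E : 𝓞 K₁ →+* 𝓞 K₂) ≠ ⊥ := by
    intro h0
    apply w.ne_bot
    have : (w.asIdeal.comap (E : 𝓞 K₁ →+* 𝓞 K₂)).map (E : 𝓞 K₁ →+* 𝓞 K₂) = w.asIdeal :=
      Ideal.map_comap_of_surjective _ E.surjective _
    rw [← this, h0, Ideal.map_bot]
  let w1 : HeightOneSpectrum (𝓞 K₁) := ⟨w.asIdeal.comap (E : 𝓞 K₁ →+* 𝓞 K₂), hprime, hne⟩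
  have hcomp : (E : 𝓞 K₁ →+* 𝓞 K₂).comp (algebraMap (𝓞 F) (𝓞 K₁)) =
      algebraMap (𝓞 F) (𝓞 K₂) := RingHom.ext fun x => E.commutes x
  have h1 := h w1 (by
    intro v hv hcon
    apply hw v hv
    rw [← hcon]
    change _ = Ideal.comap _ (Ideal.comap _ _)
    rw [Ideal.comap_comap, hcomp])
  have := h1
  exact Algebra.FormallyUnramified.of_equiv
    (Localization.localAlgEquiv w1.asIdeal w.asIdeal E rfl)

theorem FSmax_map_le (S : Set (HeightOneSpectrum (𝓞 F))) (g : Ω ≃ₐ[F] Ω) :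
    (FSmax S : IntermediateField F Ω).map (g : Ω →ₐ[F] Ω) ≤ FSmax S := by
  unfold FSmax
  rw [IntermediateField.map_iSup]
  refine iSup_le fun K => ?_
  have e := IntermediateField.intermediateFieldMap g K.1
  have hfin : FiniteDimensional F (K.1.map (g : Ω →ₐ[F] Ω)) := by
    have := K.2.1
    exact LinearEquiv.finiteDimensional e.toLinearEquiv
  exact le_iSup (fun K : {K : IntermediateField F Ω //
    FiniteDimensional F K ∧ UnramifiedOutside S K} => K.1)
    ⟨K.1.map (g : Ω →ₐ[F] Ω), hfin, unram_of_equiv S e K.2.2⟩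

end transport

/-- part K7 -/
theorem K7 : MZ.StmK7 := by
  intro F Ω _ _ _ _ _ S
  have hnorm : Normal F Ω := IsAlgClosure.normal F Ω
  have h1 : Normal F (FSmax S : IntermediateField F Ω) := by
    rw [IntermediateField.normal_iff_forall_map_le']
    exact fun g => FSmax_map_le S g
  have : Algebra.IsSeparable F (FSmax S : IntermediateField F Ω) := inferInstance
  exact ⟨⟩

section step

open Polynomial

variable {M E : Type} [Field M] [NumberField M] [Field E] [NumberField E] [Algebra M E]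

theorem isInt_two_pow (E : Type) [Field E] [NumberField E] (n : ℕ) :
    IsIntegral ℤ ((2 : E) ^ n) := by
  have := isIntegral_algebraMap (R := ℤ) (A := E) (x := (2 : ℤ) ^ n)
  simpa using this

/-- adjoining the square root of a 2-unit is unramified outside 2 -/
theorem unram_sqrt (y : E) (x : M) (hx0 : x ≠ 0) (hy : y ^ 2 = algebraMap M E x) (n : ℕ)
    (h1 : IsIntegral ℤ (2 ^ n * x)) (h2 : IsIntegral ℤ (2 ^ n * x⁻¹))
    (hadj : Algebra.adjoin M {y} = ⊤) (w : HeightOneSpectrum (𝓞 E))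
    (hw : (2 : 𝓞 E) ∉ w.asIdeal) : Algebra.IsUnramifiedAt (𝓞 M) w.asIdeal := by
  rw [← not_dvd_differentIdeal_iff]
  intro hdvd
  have hyint : IsIntegral ℤ (2 ^ n * y) := by
    apply IsIntegral.of_pow (n := 2) (by norm_num)
    have : (2 ^ n * y) ^ 2 = 2 ^ n * algebraMap M E (2 ^ n * x) := by
      rw [mul_pow, hy, map_mul, map_pow, map_ofNat]; ring
    rw [this]
    exact (isInt_two_pow E n).mul (h1.map (algebraMap M E).toIntAlgHom)
  let a : 𝓞 M := ⟨2 ^ n * x, h1⟩
  let b : 𝓞 M := ⟨2 ^ n * x⁻¹, h2⟩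
  let θ : 𝓞 E := ⟨2 ^ n * y, hyint⟩
  have hab : a * b = 4 ^ n := by
    apply RingOfIntegers.ext
    change (2 ^ n * x) * (2 ^ n * x⁻¹) = _
    have : ((4 ^ n : 𝓞 M) : M) = 4 ^ n := by
      change algebraMap (𝓞 M) M (4 ^ n) = _
      rw [map_pow, map_ofNat]
    rw [this]
    field_simp
    rw [← pow_mul, mul_comm, pow_mul]; norm_num
  have hθ : θ ^ 2 = algebraMap (𝓞 M) (𝓞 E) (2 ^ n * a) := by
    apply RingOfIntegers.ext
    change (2 ^ n * y) ^ 2 = algebraMap M E ((2 ^ n * a : 𝓞 M) : M)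
    have : ((2 ^ n * a : 𝓞 M) : M) = 2 ^ n * (2 ^ n * x) := by
      change algebraMap (𝓞 M) M (2 ^ n * a) = _
      rw [map_mul, map_pow, map_ofNat]
      rfl
    rw [this, mul_pow, hy, map_mul, map_mul, map_pow, map_ofNat]; ring
  have hint : IsIntegral (𝓞 M) θ := Algebra.IsIntegral.isIntegral θ
  have hdv : minpoly (𝓞 M) θ ∣ X ^ 2 - C (2 ^ n * a) := by
    apply minpoly.isIntegrallyClosed_dvd hint
    simp [hθ]
  obtain ⟨g, hg⟩ := hdv
  have hder : aeval θ (derivative (minpoly (𝓞 M) θ)) * aeval θ g = 2 * θ := by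
    have h3 := congrArg (fun f => aeval θ (derivative f)) hg
    simp only [derivative_sub, derivative_X_pow, derivative_C, derivative_mul, map_add,
      map_mul, minpoly.aeval, zero_mul, add_zero] at h3
    rw [← h3]
    simp [map_ofNat (algebraMap (𝓞 M) (𝓞 E)) 2]
  have hadj' : Algebra.adjoin M {algebraMap (𝓞 E) E θ} = ⊤ := by
    rw [eq_top_iff, ← hadj, Algebra.adjoin_le_iff]
    intro z hz
    rw [Set.mem_singleton_iff] at hz
    subst hz
    have h4 : z = algebraMap M E ((2 ^ n)⁻¹) * algebraMap (𝓞 E) E θ := by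
      change z = _ * (2 ^ n * z)
      rw [map_inv₀, map_pow, map_ofNat]
      field_simp
    rw [h4]
    exact Subalgebra.mul_mem _ (Subalgebra.algebraMap_mem _ _)
      (Algebra.subset_adjoin (Set.mem_singleton _))
  have hmem := aeval_derivative_mem_differentIdeal (𝓞 M) M E θ hadj'
  have hle := Ideal.le_of_dvd hdvd
  have h5 : 2 * θ ∈ w.asIdeal := by
    rw [← hder]
    exact Ideal.mul_mem_right _ _ (hle hmem)
  have hp := w.isPrime
  rcases hp.mem_or_mem h5 with h6 | h6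
  · exact hw h6
  · have h7 : θ ^ 2 ∈ w.asIdeal := by rw [sq]; exact Ideal.mul_mem_left _ _ h6
    have h8 : algebraMap (𝓞 M) (𝓞 E) (2 ^ n * 4 ^ n) ∈ w.asIdeal := by
      rw [← hab, ← mul_assoc, map_mul, ← hθ]
      exact Ideal.mul_mem_right _ _ h7
    have h9 : (2 : 𝓞 E) ^ (3 * n) ∈ w.asIdeal := by
      have : algebraMap (𝓞 M) (𝓞 E) (2 ^ n * 4 ^ n) = (2 : 𝓞 E) ^ (3 * n) := by
        rw [map_mul, map_pow, map_pow, map_ofNat, map_ofNat, ← mul_pow, pow_mul]; norm_num
      rwa [this] at h8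
    exact hw (hp.mem_of_pow_mem _ h9)

end step

section tower

variable {F Ω : Type} [Field F] [NumberField F] [Field Ω] [Algebra F Ω]

/-- The main step. -/
theorem unram_step (S : Set (HeightOneSpectrum (𝓞 F)))
    (hS : ∀ v : HeightOneSpectrum (𝓞 F), (2 : 𝓞 F) ∈ v.asIdeal → v ∈ S)
    (M E : IntermediateField F Ω) (hM : FiniteDimensional F M) (hMS : UnramifiedOutside S M)
    (y : Ω) (hy : y ^ 2 ∈ M) (hu : TwoUnit (y ^ 2)) (hE : E = M ⊔ IntermediateField.adjoin F {y}) :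
    FiniteDimensional F E ∧ UnramifiedOutside S E := by
  have hyint : IsIntegral F y := by
    apply IsIntegral.of_pow (n := 2) (by norm_num)
    have : IsIntegral F (⟨y ^ 2, hy⟩ : M) := Algebra.IsIntegral.isIntegral _
    exact this.map M.val
  have hfin : FiniteDimensional F E := by
    have := IntermediateField.adjoin.finiteDimensional hyint
    rw [hE]
    infer_instance
  refine ⟨hfin, ?_⟩
  have hME : M ≤ E := by rw [hE]; exact le_sup_left
  have hyE : y ∈ E := by
    rw [hE]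
    exact (le_sup_right : _ ≤ M ⊔ IntermediateField.adjoin F {y})
      (IntermediateField.mem_adjoin_simple_self F y)
  let _ : Algebra M E := (IntermediateField.inclusion hME).toRingHom.toAlgebra
  have _ : IsScalarTower F M E := IsScalarTower.of_algebraMap_eq (fun x => rfl)
  have : NumberField M := NumberField.of_module_finite F M
  have : NumberField E := NumberField.of_module_finite F E
  intro w hw
  have hp := w.isPrime
  have h2w : (2 : 𝓞 E) ∉ w.asIdeal := by
    intro h2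
    let v : HeightOneSpectrum (𝓞 F) := ⟨w.asIdeal.comap (algebraMap (𝓞 F) (𝓞 E)),
      Ideal.comap_isPrime _ _, mt Ideal.eq_bot_of_comap_eq_bot w.ne_bot⟩
    refine hw v (hS v ?_) rfl
    change algebraMap (𝓞 F) (𝓞 E) 2 ∈ w.asIdeal
    rwa [map_ofNat]
  obtain ⟨hy0, n, h1, h2⟩ := hu
  have inj : Function.Injective (algebraMap M Ω) := (algebraMap M Ω).injective
  have h1' : IsIntegral ℤ ((2 : M) ^ n * ⟨y ^ 2, hy⟩) := by
    rw [← isIntegral_algebraMap_iff inj]
    have : algebraMap M Ω ((2 : M) ^ n * ⟨y ^ 2, hy⟩) = 2 ^ n * y ^ 2 := by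
      rw [map_mul, map_pow, map_ofNat]; rfl
    rwa [this]
  have h2' : IsIntegral ℤ ((2 : M) ^ n * (⟨y ^ 2, hy⟩)⁻¹) := by
    rw [← isIntegral_algebraMap_iff inj]
    have : algebraMap M Ω ((2 : M) ^ n * (⟨y ^ 2, hy⟩)⁻¹) = 2 ^ n * (y ^ 2)⁻¹ := by
      rw [map_mul, map_pow, map_ofNat, map_inv₀]; rfl
    rwa [this]
  have hx0 : (⟨y ^ 2, hy⟩ : M) ≠ 0 := by
    intro h0
    exact hy0 (congrArg Subtype.val h0)
  have hadj : Algebra.adjoin M {(⟨y, hyE⟩ : E)} = ⊤ := by
    have hint : IsIntegral M (⟨y, hyE⟩ : E) := Algebra.IsIntegral.isIntegral _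
    rw [← IntermediateField.adjoin_simple_toSubalgebra_of_isAlgebraic hint.isAlgebraic]
    suffices h : IntermediateField.adjoin M {(⟨y, hyE⟩ : E)} = ⊤ by rw [h]; rfl
    have key : E ≤ ((IntermediateField.adjoin M {(⟨y, hyE⟩ : E)}).restrictScalars F).map E.val := by
      refine hE.le.trans (sup_le ?_ ?_)
      · intro z hz
        exact ⟨⟨z, hME hz⟩, IntermediateField.algebraMap_mem
          (IntermediateField.adjoin M {(⟨y, hyE⟩ : E)}) ⟨z, hz⟩, rfl⟩
      · rw [IntermediateField.adjoin_simple_le_iff]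
        exact ⟨⟨y, hyE⟩, IntermediateField.mem_adjoin_simple_self M (⟨y, hyE⟩ : E), rfl⟩
    rw [eq_top_iff]
    intro z _
    obtain ⟨z', hz', hz⟩ := key z.2
    have : z' = z := Subtype.ext hz
    rw [← this]
    exact hz'
  have h3 := unram_sqrt (M := M) (E := E) ⟨y, hyE⟩ ⟨y ^ 2, hy⟩ hx0 (Subtype.ext rfl) n h1' h2'
    hadj w h2w
  let w1 : HeightOneSpectrum (𝓞 M) := ⟨w.asIdeal.comap (algebraMap (𝓞 M) (𝓞 E)),
      Ideal.comap_isPrime _ _, mt Ideal.eq_bot_of_comap_eq_bot w.ne_bot⟩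
  have h4 := hMS w1 (by
    intro v hv hcon
    apply hw v hv
    rw [← hcon]
    change _ = Ideal.comap _ (Ideal.comap _ _)
    rw [Ideal.comap_comap, ← IsScalarTower.algebraMap_eq])
  have : w.asIdeal.LiesOver w1.asIdeal := ⟨rfl⟩
  have := w1.isPrime
  exact Algebra.IsUnramifiedAt.comp (R := 𝓞 F) w1.asIdeal w.asIdeal

/-- Towers of square roots of 2-units over `L`. -/
inductive Tow (L : IntermediateField F Ω) : IntermediateField F Ω → Prop
  | base : Tow L L
  | step (M : IntermediateField F Ω) (y : Ω) (hM : Tow L M) (hy : y ^ 2 ∈ M)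
      (hu : TwoUnit (y ^ 2)) : Tow L (M ⊔ IntermediateField.adjoin F {y})

theorem Tow.le {L M : IntermediateField F Ω} (h : Tow L M) : L ≤ M := by
  induction h with
  | base => exact le_rfl
  | step M y hM hy hu ih => exact ih.trans le_sup_left

theorem Tow.sup {L M₁ M₂ : IntermediateField F Ω} (h₁ : Tow L M₁) (h₂ : Tow L M₂) :
    Tow L (M₁ ⊔ M₂) := by
  induction h₂ with
  | base => rwa [sup_eq_left.mpr h₁.le]
  | step M y hM hy hu ih =>
    rw [← sup_assoc]
    exact Tow.step _ y ih ((le_sup_right : M ≤ M₁ ⊔ M) hy) hu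

theorem Tow.unram (S : Set (HeightOneSpectrum (𝓞 F)))
    (hS : ∀ v : HeightOneSpectrum (𝓞 F), (2 : 𝓞 F) ∈ v.asIdeal → v ∈ S)
    {L M : IntermediateField F Ω} (hL : FiniteDimensional F L) (hLS : UnramifiedOutside S L)
    (h : Tow L M) : FiniteDimensional F M ∧ UnramifiedOutside S M := by
  induction h with
  | base => exact ⟨hL, hLS⟩
  | step M y hM hy hu ih => exact unram_step S hS M _ ih.1 ih.2 y hy hu rfl

/-- the union of all towers -/
noncomputable def TU (L : IntermediateField F Ω) : IntermediateField F Ω :=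
  ⨆ M : {M : IntermediateField F Ω // Tow L M}, M.1

theorem mem_TU (L : IntermediateField F Ω) (x : Ω) :
    x ∈ TU L ↔ ∃ M : IntermediateField F Ω, Tow L M ∧ x ∈ M := by
  have : Nonempty {M : IntermediateField F Ω // Tow L M} := ⟨⟨L, Tow.base⟩⟩
  unfold TU
  have hdir : Directed (· ≤ ·) (fun M : {M : IntermediateField F Ω // Tow L M} => M.1) := by
    intro M₁ M₂
    exact ⟨⟨M₁.1 ⊔ M₂.1, M₁.2.sup M₂.2⟩, le_sup_left, le_sup_right⟩
  rw [← SetLike.mem_coe, IntermediateField.coe_iSup_of_directed hdir, Set.mem_iUnion]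
  constructor
  · rintro ⟨M, hM⟩; exact ⟨M.1, M.2, hM⟩
  · rintro ⟨M, hM, hx⟩; exact ⟨⟨M, hM⟩, hx⟩

end tower

/-- part K6 -/
theorem K6 : MZ.StmK6 := by
  intro F Ω _ _ _ _ _ S hS L hL hLS
  have hLU : L ≤ TU L := fun x hx => (mem_TU L x).mpr ⟨L, Tow.base, hx⟩
  have hK : KumClosed (IntermediateField.extendScalars hLU) := by
    intro x y hx hu hxy
    change y ∈ TU L
    have hx' : x ∈ TU L := hx
    rw [mem_TU] at hx' ⊢
    obtain ⟨M, hM, hxM⟩ := hx'
    refine ⟨M ⊔ IntermediateField.adjoin F {y}, Tow.step M y hM ?_ ?_, ?_⟩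
    · rwa [hxy]
    · rwa [hxy]
    · exact (le_sup_right : _ ≤ M ⊔ IntermediateField.adjoin F {y})
        (IntermediateField.mem_adjoin_simple_self F y)
  have h1 : Linf L Ω ≤ IntermediateField.extendScalars hLU := sInf_le hK
  intro x hx
  have h2 : x ∈ TU L := h1 hx
  rw [mem_TU] at h2
  obtain ⟨M, hM, hxM⟩ := h2
  exact (le_iSup (fun K : {K : IntermediateField F Ω //
    FiniteDimensional F K ∧ UnramifiedOutside S K} => K.1) ⟨M, hM.unram S hS hL hLS⟩) hxM

end Pool.Agent.W178.MZK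

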